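import Pool.Agent.Helper41.LD7.Defs
import Pool.Agent.Helper68.LD5.FPA

/-!
# Project LD7, block TTB1: the times
-/

set_option autoImplicit false

namespace Pool.Agent.Helper68.LD7

open Set MeasureTheory Filter Topology
open Pool.Agent.Helper41.LD5 (fp pwf)
open Pool.Agent.Helper41.LD7
open Pool.Agent.Helper68.LD5 (fp_nonneg fp_step)

variable {F : Pm} {K : ℕ} {Θ a₀ ℓst a ℓ ℓ' x : ℝ} {j n Λ : ℕ}

theorem fp_le68 {A₀ : ℝ} {P m m' : ℕ} (hA : 0 < A₀) (hP : 1 ≤ P) (hx : 1 ≤ x) (hmm : m ≤ m') : fp A₀ P m x ≤ fp A₀ P m' x := by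
  have h := fp_step (m := m) (m' := m') hA hP (le_refl (1:ℝ)) hx hmm
  rwa [Real.one_rpow, one_pow, mul_one] at h

theorem fp_small68 {A₀ : ℝ} {P m : ℕ} (hA : 0 < A₀) (hP : 1 ≤ P) (hm : m ≤ P) (hx : 1 ≤ x) : fp A₀ P m x ≤ A₀ := by
  have hP0 : (0 : ℝ) < P := by exact_mod_cast hP
  have h1 : (m : ℝ) / P ≤ 1 := by
    rw [div_le_one hP0]
    exact_mod_cast hm
  have h0 : 0 ≤ (m : ℝ) / P := by positivity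
  have h2 : x ^ ((m : ℝ) / P - 1) ≤ 1 := Real.rpow_le_one_of_one_le_of_nonpos hx (by linarith)
  have h3 : 0 ≤ x ^ ((m : ℝ) / P - 1) := Real.rpow_nonneg (by linarith) _
  unfold fp
  calc A₀ * ((m : ℝ) / P) * x ^ ((m : ℝ) / P - 1) ≤ A₀ * 1 * 1 := by
        refine mul_le_mul (mul_le_mul_of_nonneg_left h1 hA.le) h2 h3 (by linarith)
    _ = A₀ := by ring

theorem fp_step_le68 {A₀ : ℝ} {P m : ℕ} (hA : 0 < A₀) (hP : 1 ≤ P) (hm : 1 ≤ m) (hx : 1 ≤ x) (k : ℕ) :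
    fp A₀ P (m + k) x ≤ (2 * x) ^ k * fp A₀ P m x := by
  have hP0 : (0 : ℝ) < P := by exact_mod_cast hP
  have hP1 : (1 : ℝ) ≤ P := by exact_mod_cast hP
  have hm1 : (1 : ℝ) ≤ m := by exact_mod_cast hm
  have hx0 : 0 < x := by linarith
  unfold fp
  have h1 : x ^ (((m + k : ℕ) : ℝ) / P - 1) = x ^ ((m : ℝ) / P - 1) * x ^ ((k : ℝ) / P) := by
    rw [← Real.rpow_add hx0]
    congr 1
    push_cast
    ring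
  have h2 : x ^ ((k : ℝ) / P) ≤ x ^ k := by
    rw [← Real.rpow_natCast x k]
    exact Real.rpow_le_rpow_of_exponent_le hx (div_le_self (Nat.cast_nonneg k) hP1)
  have h3 : ((m + k : ℕ) : ℝ) ≤ 2 ^ k * m := by
    have h4 : ((k : ℝ) + 1) ≤ 2 ^ k := by
      have : k + 1 ≤ 2 ^ k := Nat.lt_two_pow_self
      exact_mod_cast this
    push_cast
    nlinarith [Nat.cast_nonneg (α := ℝ) k]
  have h4 : 0 < x ^ ((m : ℝ) / P - 1) := Real.rpow_pos_of_pos hx0 _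
  have h5 : 0 ≤ x ^ ((k : ℝ) / P) := Real.rpow_nonneg hx0.le _
  rw [h1]
  calc A₀ * (((m + k : ℕ) : ℝ) / P) * (x ^ ((m : ℝ) / P - 1) * x ^ ((k : ℝ) / P))
      ≤ A₀ * ((2 ^ k * m) / P) * (x ^ ((m : ℝ) / P - 1) * x ^ k) := by
        refine mul_le_mul ?_ (mul_le_mul_of_nonneg_left h2 h4.le) (mul_nonneg h4.le h5) (by positivity)
        exact mul_le_mul_of_nonneg_left (div_le_div_of_nonneg_right h3 hP0.le) hA.le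
    _ = (2 * x) ^ k * (A₀ * ((m : ℝ) / P) * x ^ ((m : ℝ) / P - 1)) := by
        rw [mul_pow]
        ring

theorem Tt_spec (hF : F.Ok) (h1 : F.x₁ ≤ a) (hℓ : 0 < ℓ) (Θ : ℝ) : Θ ≤ fp F.A₀ F.P (Tt F.A₀ F.P Θ a ℓ) a * ℓ := by
  have hne : {n : ℕ | Θ ≤ fp F.A₀ F.P n a * ℓ}.Nonempty := by
    have ha : 1 ≤ a := hF.h1.le.trans h1
    have hP0 : (0 : ℝ) < F.P := by exact_mod_cast hF.hP
    have h2 : 0 < F.A₀ / F.P * ℓ := mul_pos (div_pos hF.hA hP0) hℓ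
    obtain ⟨n, hn⟩ := exists_nat_ge (Θ / (F.A₀ / F.P * ℓ))
    refine ⟨n + F.P, ?_⟩
    rw [div_le_iff₀ h2] at hn
    show Θ ≤ F.A₀ * (((n + F.P : ℕ) : ℝ) / F.P) * a ^ (((n + F.P : ℕ) : ℝ) / F.P - 1) * ℓ
    have h3 : (1:ℝ) ≤ a ^ (((n + F.P : ℕ) : ℝ) / F.P - 1) := by
      refine Real.one_le_rpow ha ?_
      rw [sub_nonneg, le_div_iff₀ hP0, one_mul]
      push_cast
      linarith [Nat.cast_nonneg (α := ℝ) n]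
    have h4 : 0 ≤ ((n + F.P : ℕ) : ℝ) * (F.A₀ / F.P * ℓ) := mul_nonneg (Nat.cast_nonneg _) h2.le
    calc Θ ≤ n * (F.A₀ / F.P * ℓ) := hn
      _ ≤ ((n + F.P : ℕ) : ℝ) * (F.A₀ / F.P * ℓ) := by
          refine mul_le_mul_of_nonneg_right ?_ h2.le
          push_cast
          linarith
      _ ≤ ((n + F.P : ℕ) : ℝ) * (F.A₀ / F.P * ℓ) * a ^ (((n + F.P : ℕ) : ℝ) / F.P - 1) := le_mul_of_one_le_right h4 h3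
      _ = F.A₀ * (((n + F.P : ℕ) : ℝ) / F.P) * a ^ (((n + F.P : ℕ) : ℝ) / F.P - 1) * ℓ := by ring
  exact Nat.sInf_mem hne

theorem lt_Tt (hj : j < Tt F.A₀ F.P Θ a ℓ) : fp F.A₀ F.P j a * ℓ < Θ := by
  have h := Nat.notMem_of_lt_sInf hj
  rw [Set.mem_ofPred_eq] at h
  exact not_le.1 h

theorem Tt_le (hj : Θ ≤ fp F.A₀ F.P j a * ℓ) : Tt F.A₀ F.P Θ a ℓ ≤ j := Nat.sInf_le hj

theorem Tt_ge (hF : F.Ok) (h1 : F.x₁ ≤ a) (hℓ : 0 < ℓ) (hj : Tt F.A₀ F.P Θ a ℓ ≤ j) : Θ ≤ fp F.A₀ F.P j a * ℓ :=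
  (Tt_spec hF h1 hℓ Θ).trans (mul_le_mul_of_nonneg_right (fp_le68 hF.hA hF.hP (hF.h1.le.trans h1) hj) hℓ.le)

theorem Tt_mono (hF : F.Ok) (h1 : F.x₁ ≤ a) (hℓ' : 0 < ℓ') (hle : ℓ' ≤ ℓ) : Tt F.A₀ F.P Θ a ℓ ≤ Tt F.A₀ F.P Θ a ℓ' := by
  have ha : 1 ≤ a := hF.h1.le.trans h1
  refine Tt_le ((Tt_spec hF h1 hℓ' Θ).trans ?_)
  exact mul_le_mul_of_nonneg_left hle (fp_nonneg hF.hA (by linarith))

theorem Tt_block_le (hF : F.Ok) (h1 : F.x₁ ≤ a) (hℓ : 0 < ℓ) (Λ : ℕ) : Tt F.A₀ F.P Θ a (ℓ / 2 ^ Λ) ≤ Tt F.A₀ F.P Θ a ℓ + F.X * Λ := by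
  have hx1 : 1 < F.x₁ := hF.h1
  have ha : 1 ≤ a := hx1.le.trans h1
  refine Tt_le ?_
  have h2 := fp_step (m := Tt F.A₀ F.P Θ a ℓ) (m' := Tt F.A₀ F.P Θ a ℓ + F.X * Λ) hF.hA hF.hP hx1.le h1 (Nat.le_add_right _ _)
  rw [Nat.add_sub_cancel_left] at h2
  have h3 : (2:ℝ) ^ Λ ≤ (F.x₁ ^ (1 / (F.P : ℝ))) ^ (F.X * Λ) := by
    rw [pow_mul]
    exact pow_le_pow_left₀ (by norm_num) hF.hx1 Λ
  have h4 : 0 ≤ fp F.A₀ F.P (Tt F.A₀ F.P Θ a ℓ) a := fp_nonneg hF.hA (by linarith)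
  have h5 : (0:ℝ) < 2 ^ Λ := by positivity
  rw [mul_div_assoc', le_div_iff₀ h5]
  have h6 := Tt_spec hF h1 hℓ Θ
  calc Θ * 2 ^ Λ ≤ (fp F.A₀ F.P (Tt F.A₀ F.P Θ a ℓ) a * ℓ) * 2 ^ Λ := mul_le_mul_of_nonneg_right h6 h5.le
    _ = (fp F.A₀ F.P (Tt F.A₀ F.P Θ a ℓ) a * 2 ^ Λ) * ℓ := by ring
    _ ≤ (fp F.A₀ F.P (Tt F.A₀ F.P Θ a ℓ) a * (F.x₁ ^ (1 / (F.P : ℝ))) ^ (F.X * Λ)) * ℓ :=
        mul_le_mul_of_nonneg_right (mul_le_mul_of_nonneg_left h3 h4) hℓ.le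
    _ ≤ fp F.A₀ F.P (Tt F.A₀ F.P Θ a ℓ + F.X * Λ) a * ℓ := mul_le_mul_of_nonneg_right h2 hℓ.le

/-- the times are larger than `P` -/
theorem Tt_big (hF : F.Ok) (hℓ : 0 < ℓ) (hℓ1 : ℓ ≤ 1) (hΘ : (2 : ℝ) ^ (F.X + 1) ≤ Θ) (h1 : F.x₁ ≤ a) : F.P + 1 ≤ Tt F.A₀ F.P Θ a ℓ := by
  by_contra hcon
  have h2 := Tt_spec hF h1 hℓ Θ
  have hp : (0:ℝ) < 2 ^ F.X := by positivity
  have h3 : (2:ℝ) ^ (F.X + 1) = 2 * 2 ^ F.X := by ring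
  have h4 := hF.hA1
  have h5 := hF.hA
  have h6 : F.A₀ * ℓ ≤ F.A₀ := mul_le_of_le_one_right h5.le hℓ1
  have h7 := fp_small68 (x := a) (m := Tt F.A₀ F.P Θ a ℓ) hF.hA hF.hP (by omega) (hF.h1.le.trans h1)
  have h8 := mul_le_mul_of_nonneg_right h7 hℓ.le
  linarith

theorem Tt_block_ge (hF : F.Ok) (h1 : F.x₁ ≤ a) (h2 : a ≤ F.x₂) (hℓ : 0 < ℓ) (hℓ1 : ℓ ≤ 1) (hΘ : (2 : ℝ) ^ (F.X + 1) ≤ Θ) (hn : (F.X + 1) * n ≤ Λ) :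
    Tt F.A₀ F.P Θ a ℓ + n ≤ Tt F.A₀ F.P Θ a (ℓ / 2 ^ Λ) := by
  by_contra hcon
  push Not at hcon
  have ha : 1 ≤ a := hF.h1.le.trans h1
  have hP := hF.hP
  have hT := Tt_big hF hℓ hℓ1 hΘ h1
  have h5 : (0:ℝ) < 2 ^ Λ := by positivity
  have h3 := Tt_spec hF h1 (div_pos hℓ h5) Θ
  have h4 : fp F.A₀ F.P (Tt F.A₀ F.P Θ a (ℓ / 2 ^ Λ)) a ≤ fp F.A₀ F.P ((Tt F.A₀ F.P Θ a ℓ - 1) + n) a :=
    fp_le68 hF.hA hF.hP ha (by omega)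
  have h6 := fp_step_le68 (A₀ := F.A₀) (P := F.P) (m := Tt F.A₀ F.P Θ a ℓ - 1) (x := a) hF.hA hF.hP (by omega) ha n
  have h7 : fp F.A₀ F.P (Tt F.A₀ F.P Θ a ℓ - 1) a * ℓ < Θ := lt_Tt (by omega)
  have h8 : 0 ≤ fp F.A₀ F.P (Tt F.A₀ F.P Θ a ℓ - 1) a := fp_nonneg hF.hA (by linarith)
  have h9 : (2 * a) ^ n ≤ 2 ^ Λ := by
    have h10 : 2 * a ≤ 2 ^ (F.X + 1) := by
      have := h2.trans hF.hx2
      calc 2 * a ≤ 2 * 2 ^ F.X := by linarith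
        _ = 2 ^ (F.X + 1) := by ring
    calc (2 * a) ^ n ≤ (2 ^ (F.X + 1)) ^ n := pow_le_pow_left₀ (by linarith) h10 n
      _ = 2 ^ ((F.X + 1) * n) := by rw [← pow_mul]
      _ ≤ 2 ^ Λ := pow_le_pow_right₀ (by norm_num) hn
  have h10 : fp F.A₀ F.P (Tt F.A₀ F.P Θ a (ℓ / 2 ^ Λ)) a ≤ 2 ^ Λ * fp F.A₀ F.P (Tt F.A₀ F.P Θ a ℓ - 1) a :=
    h4.trans (h6.trans (mul_le_mul_of_nonneg_right h9 h8))
  have h11 : Θ ≤ fp F.A₀ F.P (Tt F.A₀ F.P Θ a ℓ - 1) a * ℓ := by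
    refine h3.trans ?_
    rw [mul_div_assoc', div_le_iff₀ h5]
    calc fp F.A₀ F.P (Tt F.A₀ F.P Θ a (ℓ / 2 ^ Λ)) a * ℓ ≤ (2 ^ Λ * fp F.A₀ F.P (Tt F.A₀ F.P Θ a ℓ - 1) a) * ℓ :=
          mul_le_mul_of_nonneg_right h10 hℓ.le
      _ = fp F.A₀ F.P (Tt F.A₀ F.P Θ a ℓ - 1) a * ℓ * 2 ^ Λ := by ring
  linarith

theorem Th_ge (hF : F.Ok) (hK : F.Big K) : (2 : ℝ) ^ (F.X + 1) ≤ F.Th K := by
  have _ := hF
  unfold Pm.Th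
  refine pow_le_pow_right₀ (by norm_num) ?_
  have h1 : F.Z ^ 4 ≤ K := hK
  have h2 : F.X + 1 ≤ F.Z := by
    unfold Pm.Z
    have : F.X + 1 ≤ 1000 * (F.X + 1) := by omega
    exact this.trans (Nat.le_mul_of_pos_right _ (by omega))
  have h3 : F.Z ≤ F.Z ^ 4 := Nat.le_self_pow (by norm_num) _
  have h4 : K ≤ F.E K := by
    unfold Pm.E
    exact Nat.le_mul_of_pos_left _ (by omega)
  have h5 : F.E K ≤ F.C₁ * F.E K := by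
    refine Nat.le_mul_of_pos_left _ ?_
    unfold Pm.C₁
    omega
  omega

theorem T_start (F : Pm) (K : ℕ) (a₀ ℓst : ℝ) : F.T K a₀ ℓst ℓst = 0 := Nat.sub_self _

end Pool.Agent.Helper68.LD7
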